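import Mathlib

set_option autoImplicit false

namespace Pool.Agent.Results.MP_06877e_nt.Counter

open Complex Finset Real

/-- The product of `x - e^{2πi k²/p}` over `1 ≤ k ≤ (p-1)/2`. -/
noncomputable def S (p : ℕ) (x : ℂ) : ℂ :=
  ∏ k ∈ Icc 1 ((p - 1) / 2), (x - cexp (2 * π * I * k ^ 2 / p))

/-- Positive solutions of `3x² + 4(p/3) = p y²`. -/
def Sol (p : ℕ) : Set (ℕ × ℕ) :=
  {s | 0 < s.1 ∧ 0 < s.2 ∧ 3 * (s.1 : ℤ) ^ 2 + 4 * legendreSym 3 p = p * (s.2 : ℤ) ^ 2}

theorem sin_lb (u : ℝ) (h0 : 0 ≤ u) (h1 : u ≤ 1 / 2) :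
    min (6 * u) (1 / 2 + 3 * u) ≤ 2 * Real.sin (π * u) := by
  have hc := strictConcaveOn_sin_Icc.concaveOn.2
  have hp := pi_pos
  rcases le_total u (1 / 6) with h | h
  · have := hc (x := 0) (y := π / 6) ⟨le_rfl, hp.le⟩ ⟨by positivity, by linarith⟩
      (a := 1 - 6 * u) (b := 6 * u) (by linarith) (by linarith) (by ring)
    simp only [smul_eq_mul, Real.sin_zero, sin_pi_div_six] at this
    rw [show (1 - 6 * u) * 0 + 6 * u * (π / 6) = π * u by ring] at this
    exact (min_le_left _ _).trans (by linarith)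
  · have := hc (x := π / 6) (y := π / 2) ⟨by positivity, by linarith⟩ ⟨by positivity, by linarith⟩
      (a := 3 / 2 - 3 * u) (b := 3 * u - 1 / 2) (by linarith) (by linarith) (by ring)
    simp only [smul_eq_mul, Real.sin_pi_div_two, sin_pi_div_six] at this
    rw [show (3 / 2 - 3 * u) * (π / 6) + (3 * u - 1 / 2) * (π / 2) = π * u by ring] at this
    exact (min_le_right _ _).trans (by linarith)

/-- A rational lower bound for `2 |sin (π m / 321)|`. -/
def lb (m : ℕ) : ℚ :=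
  min (6 * ((min (m % 321) (321 - m % 321) : ℕ) / 321 : ℚ))
    (1 / 2 + 3 * ((min (m % 321) (321 - m % 321) : ℕ) / 321 : ℚ))

theorem lb_le (m : ℕ) : (lb m : ℝ) ≤ |2 * Real.sin (π * (m / 321))| := by
  have h1 : |Real.sin (π * (m / 321))| = |Real.sin (π * ((m % 321 : ℕ) / 321))| := by
    conv_lhs => rw [← Nat.mod_add_div m 321]
    rw [show π * (((m % 321 + 321 * (m / 321) : ℕ) : ℝ) / 321) =
      π * ((m % 321 : ℕ) / 321) + (m / 321 : ℕ) * π by push_cast; ring, Real.sin_add_nat_mul_pi,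
      abs_mul, abs_neg_one_pow, one_mul]
  rw [abs_mul, h1, abs_two, lb]
  have hm : m % 321 < 321 := Nat.mod_lt _ (by norm_num)
  generalize m % 321 = r at hm
  refine le_trans ?_ (mul_le_mul_of_nonneg_left (le_abs_self _) two_pos.le)
  have h2 : Real.sin (π * (r / 321)) = Real.sin (π * ((min r (321 - r) : ℕ) / 321)) := by
    rcases le_total r (321 - r) with h | h
    · rw [min_eq_left h]
    · rw [min_eq_right h, ← Real.sin_pi_sub, Nat.cast_sub hm.le]
      congr 1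
      push_cast
      ring
  have h3 : ((min r (321 - r) : ℕ) : ℝ) ≤ (160 : ℕ) := Nat.cast_le.2 (by omega)
  rw [h2]
  generalize min r (321 - r) = t at h3
  have := sin_lb (t / 321) (by positivity) (by push_cast at h3; linarith)
  push_cast
  exact this

theorem factor (k : ℕ) : (lb (3 * k ^ 2 + 107) : ℝ) ≤
    ‖cexp (-(2 * π * I / 3)) - cexp (2 * π * I * k ^ 2 / (107 : ℕ))‖ := by
  have : cexp (2 * π * I * k ^ 2 / (107 : ℕ)) - cexp (-(2 * π * I / 3)) =
      cexp (((-(2 * π / 3) : ℝ) : ℂ) * I) *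
        (cexp (I * (2 * (π * ((3 * k ^ 2 + 107 : ℕ) / 321)) : ℝ)) - 1) := by
    rw [mul_sub, ← Complex.exp_add, mul_one]
    congr 2 <;> push_cast <;> ring
  rw [norm_sub_rev, this, norm_mul, norm_exp_ofReal_mul_I, one_mul, norm_exp_I_mul_ofReal_sub_one,
    mul_div_cancel_left₀ _ two_ne_zero]
  exact lb_le _

theorem result : Nat.Prime 107 ∧ 107 % 4 = 3 ∧ IsLeast (Sol 107) (12, 2) ∧
    ∀ u : ℂ, ‖u‖ = 1 →
      S 107 (cexp (-(2 * π * I / 3))) ≠ u * (((12 * √3 + 2 * √107) / 2 : ℝ) : ℂ) := by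
  have hl : legendreSym 3 (107 : ℕ) = -1 := by norm_num
  refine ⟨by norm_num, rfl, ⟨⟨by norm_num, by norm_num, by rw [hl]; norm_num⟩, ?_⟩,
    fun u hu h => ?_⟩
  · rintro ⟨x, y⟩ ⟨hx, hy, h⟩
    simp only [hl] at hx hy h
    have h2 : 3 * x ^ 2 = 107 * y ^ 2 + 4 := by
      zify
      push_cast at h
      linarith
    have h3 : 2 ≤ y := by
      by_contra h3
      obtain rfl : y = 1 := by omega
      have : x ≤ 6 ∨ 7 ≤ x := by omega
      rcases this with h4 | h4 <;> nlinarith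
    exact ⟨by change 12 ≤ x; nlinarith, h3⟩
  · have h1 := congrArg norm h
    rw [norm_mul, hu, one_mul, S, norm_prod, norm_real, Real.norm_of_nonneg (by positivity)] at h1
    have h2 : ∏ k ∈ Icc 1 ((107 - 1) / 2), (lb (3 * k ^ 2 + 107) : ℝ) ≤ _ :=
      prod_le_prod (fun k _ => by unfold lb; positivity) fun k _ => factor k
    have h3 : (100 : ℚ) ≤ ∏ k ∈ Icc 1 ((107 - 1) / 2), lb (3 * k ^ 2 + 107) := by decide +kernel
    have h4 : ((100 : ℚ) : ℝ) ≤ _ := Rat.cast_le.2 h3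
    rw [Rat.cast_prod] at h4
    have h5 : √3 ≤ 2 := sqrt_le_iff.2 (by norm_num)
    have h6 : √107 ≤ 11 := sqrt_le_iff.2 (by norm_num)
    rw [h1] at h2
    push_cast at h4
    linarith

end Pool.Agent.Results.MP_06877e_nt.Counter
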